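import Pool.Agent.Run7.h219.LS.Stm

/-!
Exponential decay of the heat semigroup on periodic functions of mean zero (Doeblin).
-/

set_option autoImplicit false

open MeasureTheory Set Filter Topology ProbabilityTheory
open scoped ContDiff NNReal ENNReal

namespace Pool.Agent.Run7.h811.LS

open H459R3.NS Run7.h219.SL

/-- Product measures are monotone. -/
lemma pi_mono {μ ν : Measure ℝ} [SigmaFinite μ] [SigmaFinite ν] (h : μ ≤ ν) :
    ∀ n : ℕ, Measure.pi (fun _ : Fin n => μ) ≤ Measure.pi (fun _ : Fin n => ν) := by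
  intro n
  induction n with
  | zero =>
    rw [Measure.pi_of_empty, Measure.pi_of_empty]
  | succ n ih =>
    have h1 := (measurePreserving_piFinSuccAbove (fun _ : Fin (n + 1) => μ) 0).symm
    have h2 := (measurePreserving_piFinSuccAbove (fun _ : Fin (n + 1) => ν) 0).symm
    rw [← h1.map_eq, ← h2.map_eq]
    exact Measure.map_mono (Measure.prod_mono h ih) h1.measurable

/-- The Gaussian measure of the line is bounded below on the unit interval. -/
lemma g1_ge : ENNReal.ofReal (ph1 1) • (volume : Measure ℝ).restrict (Icc 0 1) ≤ g1 := by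
  refine Measure.le_iff.2 fun s hs => ?_
  rw [gaussianReal_apply _ one_ne_zero, Measure.smul_apply, Measure.restrict_apply hs, smul_eq_mul,
    ← setLIntegral_const]
  calc ∫⁻ _ in s ∩ Icc 0 1, ENNReal.ofReal (ph1 1)
      ≤ ∫⁻ x in s ∩ Icc 0 1, gaussianPDF 0 1 x := by
        refine setLIntegral_mono' (hs.inter measurableSet_Icc) fun x hx => ?_
        unfold gaussianPDF
        refine ENNReal.ofReal_le_ofReal ?_
        have h1 : gaussianPDFReal 0 1 x = ph1 x := rfl
        rw [h1, ph1_eq, ph1_eq]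
        refine mul_le_mul_of_nonneg_left (Real.exp_le_exp.2 ?_) (by positivity)
        have h2 := hx.2.1
        have h3 := hx.2.2
        nlinarith
    _ ≤ ∫⁻ x in s, gaussianPDF 0 1 x := lintegral_mono_set inter_subset_left

/-- The constant of the minorization. -/
noncomputable def th : ℝ := ph1 1 ^ 3

lemma ph1_pos (s : ℝ) : 0 < ph1 s := by
  rw [ph1_eq]
  positivity

lemma th_pos : 0 < th := by
  unfold th
  exact pow_pos (ph1_pos 1) 3

instance fin1 : IsFiniteMeasure (ENNReal.ofReal (ph1 1) • (volume : Measure ℝ).restrict (Icc 0 1)) :=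
  ⟨by
    rw [Measure.smul_apply, Measure.restrict_apply_univ, Real.volume_Icc, smul_eq_mul]
    exact ENNReal.mul_lt_top ENNReal.ofReal_lt_top ENNReal.ofReal_lt_top⟩

lemma G_ge : ENNReal.ofReal th • (volume : Measure V).restrict cube ≤ G := by
  have h := pi_mono g1_ge 3
  have e : Measure.pi (fun _ : Fin 3 => ENNReal.ofReal (ph1 1) • (volume : Measure ℝ).restrict (Icc 0 1))
      = ENNReal.ofReal th • (volume : Measure V).restrict cube := by
    refine Measure.pi_eq fun s hs => ?_
    have hc : cube = univ.pi (fun _ : Fin 3 => Icc (0 : ℝ) 1) := by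
      unfold cube
      rw [pi_univ_Icc]
      rfl
    rw [Measure.smul_apply, hc, volume_pi, Measure.restrict_pi_pi, Measure.pi_pi]
    simp only [Measure.smul_apply, smul_eq_mul, Finset.prod_mul_distrib, Finset.prod_const,
      Finset.card_univ, Fintype.card_fin]
    congr 1
    unfold th
    rw [ENNReal.ofReal_pow (ph1_pos 1).le]
  rw [e] at h
  exact h

/-- Integrals of nonnegative functions. -/
lemma int_ge {F : V → ℝ} (hF : Continuous F) (h0 : ∀ z, 0 ≤ F z) {B : ℝ} (hB : ∀ z, F z ≤ B) :
    th * ∫ z in cube, F z ≤ ∫ z, F z ∂G := by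
  have hi : Integrable F G := Integrable.of_bound hF.aestronglyMeasurable B
    (ae_of_all _ fun z => by rw [Real.norm_of_nonneg (h0 z)]; exact hB z)
  have h := integral_mono_measure G_ge (ae_of_all _ h0) hi
  rw [integral_smul_measure, ENNReal.toReal_ofReal th_pos.le, smul_eq_mul] at h
  exact h

lemma vol_cube : (volume : Measure V).real cube = 1 := by
  have h := Real.volume_Icc_pi (a := (0 : V)) (b := 1)
  unfold Measure.real cube
  rw [h]
  simp

section

variable {f : V → ℝ}

lemma P_half (x : V) : P (1 / 2) f x = ∫ z, f (x + z) ∂G := by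
  unfold P
  have : √(2 * (1 / 2)) = 1 := by
    rw [show (2 : ℝ) * (1 / 2) = 1 by norm_num, Real.sqrt_one]
  rw [this]
  simp

lemma I_P (hf : SP f) (σ : ℝ) : I (P σ f) = I f := P_mass hf σ

/-- One step. -/
lemma step_ge (hf : SP f) (h0 : I f = 0) {D : ℝ} (hD : ∀ x, |f x| ≤ D) (x : V) :
    -((1 - th) * D) ≤ P (1 / 2) f x := by
  have hc : Continuous fun z : V => f (x + z) + D := (hf.cont.comp (by fun_prop)).add continuous_const
  have h1 := int_ge hc (fun z => by have := neg_le_of_abs_le (hD (x + z)); linarith) (B := 2 * D)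
    (fun z => by have := le_of_abs_le (hD (x + z)); linarith)
  have i1 : Integrable (fun z : V => f (x + z)) G := Integrable.of_bound
    (hf.cont.comp (by fun_prop)).aestronglyMeasurable D
    (ae_of_all _ fun z => by rw [Real.norm_eq_abs]; exact hD _)
  have i2 : IntegrableOn (fun z : V => f (x + z)) cube :=
    (hf.cont.comp (by fun_prop)).continuousOn.integrableOn_compact isCompact_Icc
  have i3 : IntegrableOn (fun _ : V => D) cube :=
    continuousOn_const.integrableOn_compact isCompact_Icc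
  rw [integral_add i1 (integrable_const _), integral_add i2 i3] at h1
  have e1 : ∫ z in cube, f (x + z) = 0 := by
    have := Pool.Agent.Q67.VD.int_shift hf.per x
    simp_rw [add_comm x]
    rw [this]
    exact h0
  rw [e1, setIntegral_const, vol_cube, integral_const, probReal_univ, ← P_half] at h1
  simp only [smul_eq_mul, one_mul, zero_add] at h1
  linarith

lemma step (hf : SP f) (h0 : I f = 0) {D : ℝ} (hD : ∀ x, |f x| ≤ D) (x : V) :
    |P (1 / 2) f x| ≤ (1 - th) * D := by
  rw [abs_le]
  refine ⟨step_ge hf h0 hD x, ?_⟩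
  have h1 := step_ge (sp_neg hf) (by rw [I_neg, h0, neg_zero]) (D := D)
    (fun x => by rw [abs_neg]; exact hD x) x
  have e : P (1 / 2) (fun x => -f x) x = -P (1 / 2) f x := by
    unfold P
    exact integral_neg _
  rw [e] at h1
  linarith

lemma th_le : th ≤ 1 := by
  have h1 : ph1 1 ≤ 1 := by
    rw [ph1_eq]
    have h2 : (√(2 * Real.pi))⁻¹ ≤ 1 := by
      refine inv_le_one_of_one_le₀ ?_
      rw [Real.one_le_sqrt]
      have := Real.pi_gt_three
      linarith
    have h3 : Real.exp (-((1 : ℝ) ^ 2 / 2)) ≤ 1 := by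
      rw [Real.exp_le_one_iff]
      norm_num
    calc _ ≤ (1 : ℝ) * 1 := mul_le_mul h2 h3 (Real.exp_pos _).le zero_le_one
      _ = 1 := one_mul 1
  unfold th
  exact pow_le_one₀ (ph1_pos 1).le h1

lemma steps (n : ℕ) : ∀ (f : V → ℝ), SP f → I f = 0 → ∀ D : ℝ, (∀ x, |f x| ≤ D) → ∀ x,
    |P (n / 2) f x| ≤ (1 - th) ^ n * D := by
  induction n with
  | zero =>
    intro f hf h0 D hD x
    simp only [CharP.cast_eq_zero, zero_div, pow_zero, one_mul]
    rw [P_zero]
    exact hD x
  | succ n ih =>
    intro f hf h0 D hD x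
    have hs : SP (P (1 / 2) f) := P_sp hf (by norm_num)
    have h1 := ih (P (1 / 2) f) hs (by rw [I_P hf, h0]) ((1 - th) * D) (step hf h0 hD) x
    rw [P_add_time hf (by positivity) (by norm_num)] at h1
    have e : ((n + 1 : ℕ) : ℝ) / 2 = (n : ℝ) / 2 + 1 / 2 := by
      push_cast
      ring
    rw [e, pow_succ, mul_assoc]
    exact h1

/-- Exponential decay. -/
theorem decay : ∃ C κ : ℝ, 0 < C ∧ 0 < κ ∧ ∀ (f : V → ℝ) (D : ℝ), SP f → I f = 0 →
    (∀ x, |f x| ≤ D) → ∀ s : ℝ, 0 ≤ s → ∀ x, |P s f x| ≤ C * D * Real.exp (-(κ * s)) := by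
  refine ⟨Real.exp th, 2 * th, Real.exp_pos _, by have := th_pos; linarith, ?_⟩
  intro f D hf h0 hD s hs x
  have hD0 : 0 ≤ D := (abs_nonneg _).trans (hD 0)
  obtain ⟨n, hn⟩ : ∃ n : ℕ, n = ⌊2 * s⌋₊ := ⟨_, rfl⟩
  have h1 : (n : ℝ) ≤ 2 * s := by
    rw [hn]
    exact Nat.floor_le (by linarith)
  have h2 : 2 * s < n + 1 := by
    rw [hn]
    exact Nat.lt_floor_add_one _
  have hr : 0 ≤ s - n / 2 := by linarith
  have h3 := steps n (P (s - n / 2) f) (P_sp hf hr) (by rw [I_P hf, h0]) D
    (fun x => P_abs _ x hD) x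
  rw [P_add_time hf (by positivity) hr] at h3
  have e : (n : ℝ) / 2 + (s - n / 2) = s := by ring
  rw [e] at h3
  refine h3.trans ?_
  have h4 : (1 - th) ^ n ≤ Real.exp th * Real.exp (-(2 * th * s)) := by
    have h5 : 1 - th ≤ Real.exp (-th) := by
      have := Real.add_one_le_exp (-th)
      linarith
    have h6 : (1 - th) ^ n ≤ Real.exp (-th) ^ n :=
      pow_le_pow_left₀ (by have := th_le; linarith) h5 n
    rw [← Real.exp_nat_mul] at h6
    refine h6.trans ?_
    rw [← Real.exp_add]
    refine Real.exp_le_exp.2 ?_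
    have := th_pos
    nlinarith
  calc (1 - th) ^ n * D ≤ (Real.exp th * Real.exp (-(2 * th * s))) * D :=
        mul_le_mul_of_nonneg_right h4 hD0
    _ = _ := by ring

end

theorem t_DOB : Run7.h219.LS.S_DOB := decay

end Pool.Agent.Run7.h811.LS
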