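import Pool.Agent.Run7.h219.LS.Stm

/-!
Assembly: the theorem for a ball, viscosity one.
-/

set_option autoImplicit false

open MeasureTheory Set Metric Filter Topology
open scoped ContDiff ENNReal

namespace Pool.Agent.Run7.h811.LS

open H459R3.NS W221.NS Run7.h219.SL Run7.h219.LS
open Pool.Agent.W349.MF (cutoff pd_bd cut_sol pd_congr' slice_smooth nsq_nonneg')

lemma cube_eq : cube = closedBall cc (1 / 2) := by
  ext x
  rw [mem_closedBall, dist_pi_le_iff (by norm_num)]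
  unfold cube cc
  simp only [mem_Icc, Pi.le_def, Pi.zero_apply, Pi.one_apply, Real.dist_eq]
  constructor
  · rintro ⟨h1, h2⟩ i
    have := h1 i
    have := h2 i
    rw [abs_le]
    constructor <;> linarith
  · intro h
    constructor <;> intro i <;> have := abs_le.1 (h i) <;> linarith [this.1, this.2]

lemma ball_cube {ρ : ℝ} (h : ρ ≤ 1 / 2) : ball cc ρ ⊆ cube := by
  rw [cube_eq]
  exact (ball_subset_ball h).trans ball_subset_closedBall

/-- Integrals of continuous nonnegative functions of time and space. -/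
lemma lint_le {G : ℝ → V → ℝ} (hG : Continuous (fun z : ℝ × V => G z.1 z.2)) (h0 : ∀ t x, 0 ≤ G t x)
    {s α : ℝ} (hs : 0 < s) (hα : 0 ≤ α) {O : Set V} (hO : O ⊆ cube) :
    ∫⁻ t in Ioo α s, ∫⁻ y in O, ENNReal.ofReal (G t y)
      ≤ ENNReal.ofReal (∫ t in (0 : ℝ)..s, I (G t)) := by
  have hGt : ∀ t, Continuous (G t) := fun t => hG.comp (by fun_prop : Continuous fun y : V => (t, y))
  have hI : Continuous fun t => I (G t) := by
    unfold I
    have hc : IsCompact cube := isCompact_Icc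
    exact continuous_parametric_integral_of_continuous (f := fun t y => G t y) (by
      unfold Function.uncurry
      exact hG) hc
  have hI0 : ∀ t, 0 ≤ I (G t) := fun t => I_nonneg (h0 t)
  rw [intervalIntegral.integral_of_le hs.le, ofReal_integral_eq_lintegral_ofReal
    (hI.continuousOn.integrableOn_Icc.mono_set Ioc_subset_Icc_self) (ae_of_all _ hI0)]
  refine (lintegral_mono_set (s := Ioo α s) (t := Ioc 0 s)
    (fun t ht => ⟨hα.trans_lt ht.1, ht.2.le⟩)).trans ?_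
  refine setLIntegral_mono' measurableSet_Ioc fun t _ => ?_
  refine (lintegral_mono_set hO).trans ?_
  unfold I
  have hint : IntegrableOn (G t) cube :=
    (hGt t).continuousOn.integrableOn_compact (isCompact_Icc : IsCompact cube)
  rw [ofReal_integral_eq_lintegral_ofReal hint (ae_of_all _ (h0 t))]

/-- Translation in time. -/
lemma lint_shift (f : ℝ → ℝ≥0∞) (a α β : ℝ) :
    ∫⁻ τ in Ioo (a + α) (a + β), f (τ - a) = ∫⁻ t in Ioo α β, f t := by
  rw [← lintegral_indicator measurableSet_Ioo, ← lintegral_indicator measurableSet_Ioo,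
    ← lintegral_sub_right_eq_self (fun t => (Ioo α β).indicator f t) a]
  congr 1
  funext τ
  by_cases h : τ ∈ Ioo (a + α) (a + β)
  · rw [indicator_of_mem h, indicator_of_mem (show τ - a ∈ Ioo α β from
      ⟨by linarith [h.1], by linarith [h.2]⟩)]
  · rw [indicator_of_notMem h, indicator_of_notMem]
    exact fun h' => h ⟨by linarith [h'.1], by linarith [h'.2]⟩

theorem t_NORM (h1 : S_COUNT4) (h2 : S_SHELL) (h3 : S_DATA) (h4 : S_CORE) : S_NORM := by
  obtain ⟨C₄, ε, hC₄, hε, H4⟩ := h1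
  obtain ⟨C₅, c, hC₅, hc, H5⟩ := h4 ε hε
  refine ⟨8 * C₄ * C₅, c, by positivity, hc, ?_⟩
  intro T E Ω u p hT hE hS hK hdis
  obtain ⟨ρs, κs, δs, M, hsh⟩ := h2 T E Ω u p hT hE hS hK hdis
  obtain ⟨φ, ρ₀, B, M', r₁, hρ1, hρ2, hB, hM', hr₁, hφ1, hφ2, H3⟩ :=
    h3 T E Ω u p hT hE hS hK ρs κs δs M hsh
  obtain ⟨Cu, hCu, H5⟩ := H5 B E M' hB hE hM'
  -- the cut-off solution
  have hKc : IsCompact (closedBall cc (1 / 4 : ℝ)) := isCompact_closedBall _ _
  obtain ⟨ζ, δ, hδ, hζ, hcs, hts, h01, hζ1, hOΩ⟩ := cutoff hKc hS.openO hK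
  obtain ⟨Bζ, hBζ0, hBζ⟩ := pd_bd hζ hcs
  obtain ⟨O, hO⟩ : ∃ O, O = ball cc ρ₀ := ⟨_, rfl⟩
  have hOo : IsOpen O := by rw [hO]; exact isOpen_ball
  have hO14 : O ⊆ ball cc (1 / 4) := by rw [hO]; exact ball_subset_ball hρ2.le
  have hOΩ' : O ⊆ Ω := hO14.trans (ball_subset_closedBall.trans hK)
  have hOcube : O ⊆ cube := by rw [hO]; exact ball_cube (by linarith)
  have hζO : ∀ x ∈ O, ζ x = 1 := fun x hx =>
    hζ1 x (self_subset_thickening hδ _ (ball_subset_closedBall (hO14 hx)))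
  have hL := cut_sol hE hS hζ hcs hts h01 hOo hOΩ' hζO hBζ0 hBζ
  obtain ⟨κ, hκ⟩ : ∃ κ, κ = 2 * Bζ * E := ⟨_, rfl⟩
  rw [← hκ] at hL
  have hκ0 : 0 ≤ κ := by rw [hκ]; positivity
  -- small radii
  have l0 : Tendsto (fun r : ℝ => r) (𝓝[>] 0) (𝓝 0) := nhdsWithin_le_nhds
  have e1 : ∀ᶠ r : ℝ in 𝓝[>] 0, C₄ * κ * √(r / 4) < 1 := by
    have c2 : Continuous fun r : ℝ => C₄ * κ * √(r / 4) := by fun_prop
    have := (c2.tendsto 0).comp l0
    simp only [zero_div, Real.sqrt_zero, mul_zero] at this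
    exact this.eventually_lt_const one_pos
  have e2 : ∀ᶠ r : ℝ in 𝓝[>] 0, C₄ * (r / 4 + E * √(r / 4)) < ρ₀ - 1 / 8 := by
    have c2 : Continuous fun r : ℝ => C₄ * (r / 4 + E * √(r / 4)) := by fun_prop
    have := (c2.tendsto 0).comp l0
    simp only [zero_div, Real.sqrt_zero, mul_zero, add_zero] at this
    exact this.eventually_lt_const (by linarith)
  have e3 : ∀ᶠ r : ℝ in 𝓝[>] 0, 8 * C₄ * Cu * r < 1 := by
    have c2 : Continuous fun r : ℝ => 8 * C₄ * Cu * r := by fun_prop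
    have := (c2.tendsto 0).comp l0
    simp only [mul_zero] at this
    exact this.eventually_lt_const one_pos
  have e4 : ∀ᶠ r : ℝ in 𝓝[>] 0, Cu * r < 1 := by
    have c2 : Continuous fun r : ℝ => Cu * r := by fun_prop
    have := (c2.tendsto 0).comp l0
    simp only [mul_zero] at this
    exact this.eventually_lt_const one_pos
  have e5 : ∀ᶠ r : ℝ in 𝓝[>] 0, r < r₁ := l0.eventually_lt_const hr₁
  obtain ⟨r₂, hr₂, hall⟩ := (mem_nhdsGT_iff_exists_Ioo_subset (a := (0 : ℝ))).1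
    (e1.and (e2.and (e3.and (e4.and e5))))
  refine ⟨min r₂ (√T), lt_min hr₂ (Real.sqrt_pos.2 hT), ?_, ?_⟩
  · calc (min r₂ (√T)) ^ 2 ≤ (√T) ^ 2 := by
          refine pow_le_pow_left₀ (le_min hr₂.le (Real.sqrt_nonneg _)) (min_le_right _ _) 2
      _ = T := Real.sq_sqrt hT.le
  intro r hr hrr S hS1 hsep
  obtain ⟨a1, a2, a3, a4, a5⟩ := hall (show r ∈ Ioo 0 r₂ from ⟨hr, hrr.trans_le (min_le_left _ _)⟩)
  obtain ⟨hrT, H3⟩ := H3 r hr a5
  have hr2 : 0 < r ^ 2 := by positivity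
  -- the time slice
  obtain ⟨v, hv⟩ : ∃ v, v = u (T - r ^ 2) := ⟨_, rfl⟩
  obtain ⟨J, hJ⟩ : ∃ J, J = ∫ x in {x ∈ ball cc (1 / 4) | c ^ 2 < r ^ 2 * nsq v x}, nsq v x := ⟨_, rfl⟩
  rw [← hv, ← hJ]
  have hJ0 : 0 ≤ J := by
    rw [hJ]
    exact integral_nonneg fun x => nsq_nonneg' v x
  have hvc : ContinuousOn v Ω := by
    rw [hv]
    have h5 : ContinuousOn (fun x : V => ((T - r ^ 2, x) : ℝ × V)) Ω := by fun_prop
    exact hS.smooth_u.continuousOn.comp h5 fun x hx => ⟨⟨by linarith, by linarith⟩, hx⟩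
  have hnc : ContinuousOn (nsq v) Ω := by
    have : nsq v = fun x => ∑ i, v x i ^ 2 := rfl
    rw [this]
    exact continuousOn_finsetSum _ fun i _ => ((continuous_apply i).comp_continuousOn hvc).pow 2
  have hni : IntegrableOn (nsq v) (ball cc (1 / 4)) :=
    ((hnc.mono hK).integrableOn_compact hKc).mono_set ball_subset_closedBall
  -- counting
  obtain ⟨ρ, hρ⟩ : ∃ ρ, ρ = r / 4 := ⟨_, rfl⟩
  have hρ0 : 0 < ρ := by rw [hρ]; positivity
  have hρ2' : ρ ^ 2 = r ^ 2 / 16 := by rw [hρ]; ring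
  have hx8 : ∀ x ∈ S, x ∈ O := by
    intro x hx
    have := (hS1 x hx).1
    rw [hO]
    rw [mem_closedBall] at this
    rw [mem_ball]
    linarith
  obtain ⟨s', hs1, hs2, key⟩ := H4 T κ E O _ _ hκ0 hE hL ρ hρ0 (by rw [hρ2']; linarith)
    (by rw [hρ]; exact a1.le) S
    (by
      intro x hx ε' hε' N
      obtain ⟨δ', hδ', hδO⟩ := Metric.isOpen_iff.1 hOo x (hx8 x hx)
      obtain ⟨t, ht, y, hy, hN⟩ := (hS1 x hx).2 (min ε' δ') (lt_min hε' hδ') N
      refine ⟨t, ⟨by linarith [ht.1, min_le_left ε' δ'], ht.2⟩, y,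
        ball_subset_ball (min_le_left _ _) hy, ?_⟩
      have hyO : y ∈ O := hδO (ball_subset_ball (min_le_right _ _) hy)
      show N < ‖ζ y • u t y‖
      rw [hζO y hyO, one_smul]
      exact hN)
    (by
      intro x hx
      have h5 := (hS1 x hx).1
      rw [mem_closedBall] at h5
      rw [hO]
      refine ball_subset_ball' ?_
      rw [hρ]
      linarith)
    (fun x hx y hy hxy => by
      have := hsep x hx y hy hxy
      rw [hρ]
      linarith)
  obtain ⟨s, hs⟩ : ∃ s, s = s' - (T - r ^ 2) := ⟨_, rfl⟩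
  have hsr : s < r ^ 2 := by rw [hs]; linarith
  have hsl : r ^ 2 - ρ ^ 2 < s := by rw [hs]; linarith
  have hs78 : 7 * r ^ 2 / 8 < s := by rw [hρ2'] at hsl; linarith
  have hs0 : 0 < s := by linarith
  have hsρ : 7 * r ^ 2 / 8 < s - ρ ^ 2 := by rw [hρ2'] at hsl ⊢; linarith
  obtain ⟨Z, U, q, hcd, hcb, hU⟩ := H3 s hs0 hsr
  -- the energy of the fast part
  have hφ01 : ∀ x, 0 ≤ φ x ∧ φ x ≤ 1 := hcd.rng
  have hUv : ∀ x ∈ cube, φ x ≠ 0 → ∀ i, U i 0 x = v x i := by
    intro x hx hφ i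
    rw [hv, hU 0 ⟨le_rfl, hs0.le⟩ x (hφ2 x hx hφ) hφ i, add_zero]
  have hsq : ∀ x ∈ cube, ∑ i, (φ x * U i 0 x) ^ 2 = φ x ^ 2 * nsq v x := by
    intro x hx
    by_cases hφ : φ x = 0
    · simp [hφ]
    · have e : nsq v x = ∑ i, v x i ^ 2 := rfl
      rw [e, Finset.mul_sum]
      refine Finset.sum_congr rfl fun i _ => ?_
      rw [hUv x hx hφ i]
      ring
  have hle : ∀ x, φ x ^ 2 * nsq v x ≤ nsq v x := fun x =>
    mul_le_of_le_one_left (nsq_nonneg' v x) (pow_le_one₀ (hφ01 x).1 (hφ01 x).2)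
  have hJle : ∫ x in cube ∩ {x | c ^ 2 < r ^ 2 * ∑ i, (φ x * U i 0 x) ^ 2},
        ∑ i, (φ x * U i 0 x) ^ 2 ≤ J := by
    rw [hJ]
    have hUc : ∀ i, Continuous (U i 0) := fun i => (hcd.jU i).c.comp
      (by fun_prop : Continuous fun y : V => ((0 : ℝ), y))
    have hFc : Continuous fun x => ∑ i, (φ x * U i 0 x) ^ 2 :=
      continuous_finsetSum _ fun i _ => (hcd.sp.cont.mul (hUc i)).pow 2
    have hA : MeasurableSet {x | c ^ 2 < r ^ 2 * ∑ i, (φ x * U i 0 x) ^ 2} :=
      (isOpen_lt continuous_const (continuous_const.mul hFc)).measurableSet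
    have hcm : MeasurableSet cube := measurableSet_Icc
    have hsub : cube ∩ {x | c ^ 2 < r ^ 2 * ∑ i, (φ x * U i 0 x) ^ 2}
        ⊆ {x ∈ ball cc (1 / 4) | c ^ 2 < r ^ 2 * nsq v x} := by
      rintro x ⟨hx, hx2⟩
      rw [Set.mem_ofPred_eq, hsq x hx] at hx2
      have hφ : φ x ≠ 0 := by
        intro h
        rw [h] at hx2
        have : 0 < c ^ 2 := by positivity
        simp at hx2
        linarith
      refine ⟨hφ2 x hx hφ, hx2.trans_le ?_⟩
      exact mul_le_mul_of_nonneg_left (hle x) hr2.le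
    have hiv : IntegrableOn (nsq v) {x ∈ ball cc (1 / 4) | c ^ 2 < r ^ 2 * nsq v x} :=
      hni.mono_set fun x hx => hx.1
    calc ∫ x in cube ∩ {x | c ^ 2 < r ^ 2 * ∑ i, (φ x * U i 0 x) ^ 2}, ∑ i, (φ x * U i 0 x) ^ 2
        ≤ ∫ x in cube ∩ {x | c ^ 2 < r ^ 2 * ∑ i, (φ x * U i 0 x) ^ 2}, nsq v x := by
          refine setIntegral_mono_on ?_ (hiv.mono_set hsub) (hcm.inter hA) fun x hx => ?_
          · exact (hFc.continuousOn.integrableOn_compact (isCompact_Icc : IsCompact cube)).mono_set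
              inter_subset_left
          · rw [hsq x hx.1]
            exact hle x
      _ ≤ _ := setIntegral_mono_set hiv (ae_of_all _ fun x => nsq_nonneg' v x)
          (Eventually.of_forall hsub)
  -- the estimate
  have hest : ∀ η : ℝ, 0 < η → (S.card : ℝ) * ρ ≤ C₄ * (C₅ * J + Cu * r ^ 2 + η) := by
    intro η hη
    obtain ⟨G, hG, -, hG0, hG1, hG2⟩ := H5 r s φ Z U q hr a4.le hs78 hsr hcd hcb η hη
    have key2 := key (fun t x => G (t - (T - r ^ 2)) x)
      (hG.comp (by fun_prop : Continuous fun z : ℝ × V => (z.1 - (T - r ^ 2), z.2))).continuousOn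
      (by
        intro t ht y hy
        refine ⟨hG0 _ _, ?_⟩
        obtain ⟨t', ht'⟩ : ∃ t', t' = t - (T - r ^ 2) := ⟨_, rfl⟩
        have ht1 : t' ∈ Ioo (7 * r ^ 2 / 8) s := ⟨by
          have := ht.1
          rw [ht']
          linarith, by
          have := ht.2
          rw [ht', hs]
          linarith⟩
        have htT : t = T - r ^ 2 + t' := by rw [ht']; ring
        have hyn : O ∈ 𝓝 y := hOo.mem_nhds hy
        have hφy : φ =ᶠ[𝓝 y] fun _ => 1 := by
          filter_upwards [hyn] with z hz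
          rw [hO] at hz
          exact hφ1 z hz
        have h6 := hG1 t' ht1 y hφy
        have h7 : gsq (fun x => ζ x • u t x) y = ∑ i, ∑ j, pd j (U i t') y ^ 2 := by
          unfold gsq
          refine Finset.sum_congr rfl fun i _ => Finset.sum_congr rfl fun j _ => ?_
          have h8 : (fun y => (ζ y • u t y) i) =ᶠ[𝓝 y] U i t' := by
            filter_upwards [hyn] with z hz
            rw [hζO z hz, one_smul]
            have hzφ : φ z ≠ 0 := by
              rw [hO] at hz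
              rw [hφ1 z hz]
              exact one_ne_zero
            rw [hU t' ⟨by linarith [ht1.1], ht1.2.le⟩ z (hO14 hz) hzφ i, ← htT]
          rw [pd_congr' h8 j]
        show gsq (fun x => ζ x • u t x) y ≤ 2 * G (t - (T - r ^ 2)) y + ε / ρ ^ 4
        rw [h7, ← ht']
        refine h6.trans ?_
        have h9 : ε / r ^ 4 ≤ ε / ρ ^ 4 := by
          refine div_le_div_of_nonneg_left hε.le (by positivity) ?_
          refine pow_le_pow_left₀ hρ0.le ?_ 4
          rw [hρ]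
          linarith
        linarith)
    have h10 : ∫⁻ τ in Ioo (s' - ρ ^ 2) s', ∫⁻ y in O, ENNReal.ofReal (G (τ - (T - r ^ 2)) y)
        ≤ ENNReal.ofReal (∫ t in (0 : ℝ)..s, I (G t)) := by
      have e6 : Ioo (s' - ρ ^ 2) s' = Ioo (T - r ^ 2 + (s - ρ ^ 2)) (T - r ^ 2 + s) := by
        rw [hs]
        congr 1 <;> ring
      rw [e6, lint_shift (fun t => ∫⁻ y in O, ENNReal.ofReal (G t y))]
      exact lint_le hG hG0 hs0 (by linarith) hOcube
    have h11 := key2.trans (mul_le_mul_right h10 (ENNReal.ofReal C₄))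
    have hI0 : 0 ≤ ∫ t in (0 : ℝ)..s, I (G t) :=
      intervalIntegral.integral_nonneg hs0.le fun t _ => I_nonneg (hG0 t)
    rw [← ENNReal.ofReal_mul hC₄.le, ENNReal.ofReal_le_ofReal_iff (by positivity)] at h11
    refine h11.trans (mul_le_mul_of_nonneg_left (hG2.trans ?_) hC₄.le)
    have := mul_le_mul_of_nonneg_left hJle hC₅.le
    linarith
  have hfin : (S.card : ℝ) * ρ ≤ C₄ * (C₅ * J + Cu * r ^ 2) := by
    refine le_of_forall_pos_le_add fun η hη => ?_
    have := hest (η / C₄) (by positivity)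
    calc (S.card : ℝ) * ρ ≤ C₄ * (C₅ * J + Cu * r ^ 2 + η / C₄) := this
      _ = _ := by field_simp
  rcases Nat.eq_zero_or_pos S.card with h0 | h0
  · rw [h0]
    simp only [CharP.cast_eq_zero, zero_mul]
    positivity
  · have h12 : (1 : ℝ) ≤ S.card := by exact_mod_cast h0
    rw [hρ] at hfin
    have h13 : C₄ * (Cu * r ^ 2) ≤ r / 8 := by
      have : 8 * C₄ * Cu * r * r ≤ 1 * r := mul_le_mul_of_nonneg_right a3.le hr.le
      nlinarith
    have h14 : r / 8 ≤ S.card * r / 8 := by nlinarith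
    nlinarith

end Pool.Agent.Run7.h811.LS
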